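import Pool.Agent.TH684.AP.Conv

/-!
# Distillation with bounded error of a `PSPACE`-hard language puts `PSPACE` in `AM`

`InAM` is the class `AM = IP(2)`: two-message public-coin proofs with perfect completeness and
soundness error at most `1 / 2`. `InPSPACE` and `PSPACEHard` (many-one) are the notions of
`Pool.Agent.H623R2.PS` (machines of Mathlib with polynomially bounded stacks); polynomial time is
Mathlib's `Turing.TM2ComputableInPolyTime`, for functions on bit strings.

`RDistills (Val g A) B`: a probabilistic polynomial-time algorithm maps every nonempty list of strings
of length at most `n` to one string of length at most `q (n)`, `q` a polynomial, no matter how long the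
list is, which is in `B` if and only if `g = 1` on the vector of the answers to `y ∈ A`, `y` in the
list, with error probability at most `1 / 3` on both sides. Here `A` is any `PSPACE`-hard language,
`B` is an arbitrary language, and `g` is any polynomial-time computable function with polynomially
large sensitivity, for example OR (for `RDistills (SomeIn A) B`), AND (`RDistills (AllIn A) B`),
parity, or majority.

Drucker (2012) proved that such an algorithm, for OR or AND, puts `PSPACE` into `NP/poly`. We show that
it puts `PSPACE` into `AM`, without advice, and give an exact law: `PSPACE ⊆ AM` if and only if for
some `PSPACE`-hard set one vector of an explicit family can be excluded with public coins as the vector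
of the answers to polynomially many questions.

Proof. As in `MP_d404e6_lc.BoundedErrorDistillation` a distillation gives an exclusion of a vector
with public coins, for a `PSPACE`-hard set, which is `NP`-hard; so `coNP ⊆ AM` by that theorem, and
then `AM` is closed under complement and polynomially bounded quantifiers
(Boppana, Hastad, Zachos). So Merlin can be replaced by a function computable in the class `AM`
which, given suitable random bits, excludes a vector for all lists of a given size (the probability of
an error is so small that some random bits are good for all these lists). With these random bits as
an advice the law of exclusion for classes gives a short list of candidates for the answers to any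
list of questions about a set in `PSPACE`, and then an advice with which the values of all nodes of
the evaluation tree of a quantified formula are computed in `AM`; the right advice is recognised by
the local rules of the tree, so no advice is needed. The converse is proved by repetition: `A` and its
complement have two-message proofs.
-/

set_option autoImplicit false

namespace Pool.Agent.Results.MP_994c82_lc.BoundedErrorSpace

open Pool.Agent.NPC Pool.Agent.TH684.EX Pool.Agent.TH684.DI Pool.Agent.TH684.AM
open Pool.Agent.TH684.AP
open Pool.Agent.H623R2.PS (InPSPACE PSPACEHard)
open Pool.Agent.W920.NL (InAM)

/-- **Distillation with bounded error of `PSPACE`-hard languages.** If some `PSPACE`-hard language has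
an OR-distillation, an AND-distillation, or a distillation of another sensitive function, with
two-sided error `1 / 3`, into any language, then `PSPACE` is contained in `AM`. Moreover, `PSPACE` is
contained in `AM` if and only if for some `PSPACE`-hard language one vector of some strongly explicit
family can be excluded with public coins as the vector of the answers to polynomially many
questions. -/
theorem result :
    (∀ A B : Set (List Bool), PSPACEHard A → (RDistills (SomeIn A) B ∨ RDistills (AllIn A) B) →
      ∀ S : Set (List Bool), InPSPACE S → InAM S) ∧
    (∀ g : List Bool → Bool, PolyTime (fun z => [g z]) → PolySens g →
      ∀ A B : Set (List Bool), PSPACEHard A → RDistills (Val g A) B →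
        ∀ S : Set (List Bool), InPSPACE S → InAM S) ∧
    List.TFAE
      [∀ S : Set (List Bool), InPSPACE S → InAM S,
        ∃ A L : Set (List Bool), PSPACEHard A ∧ InP L ∧ AMFeasible (Exclude L A),
        ∃ A : Set (List Bool), PSPACEHard A ∧ AMFeasible (NotOnly A),
        ∀ A : Set (List Bool), InPSPACE A → AMFeasible (NotOnly A)] :=
  ⟨fun A _ hA h => h.elim
      (fun h => pspace_inAM_of_rdistills gor_poly (polySens_of_linSens gor_lin) hA
        (someIn_eq A ▸ h))
      (fun h => pspace_inAM_of_rdistills gand_poly (polySens_of_linSens gand_lin) hA
        (allIn_eq A ▸ h)),
    fun _ hg hs _ _ hA h => pspace_inAM_of_rdistills (poly_of_singleton hg) hs hA h,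
    pspace_am_tfae⟩

end Pool.Agent.Results.MP_994c82_lc.BoundedErrorSpace
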