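import Pool.Agent.TH679.PD.Main

/-!
# NL ⊆ P for pure dynamic programs: cheapest derivations need many registers

The problem: an acyclic graph is given, with weights for the rules `(i, u, φ)`, where `i` is a node,
`u` a letter for `i` and `φ` a tuple of letters for the children of `i`; the minimum weight of a
derivation tree of `(r, u)` is asked for (`deriv` over the tropical semiring). This is a weighted
form of the evaluation of layered circuits (AND/OR graphs, path systems), which is complete for P.
A program computes step by step with a few registers, which hold real numbers or infinity, using the
operations `min` and `+` (a pure dynamic program; a step also can load a weight or a constant).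

Dynamic programming level by level solves the problem with `O(N)` steps, `N` being the number of
weights, if there is one register for each letter and each node of two consecutive levels. We show
that this number of registers is needed up to a constant factor, for stacks of butterfly graphs with
two letters: with `12 s` registers, `s = √(N / log₂ N)`, `5 N` steps are enough, but with `s / 24`
registers `2 ^ (s / 24) - 1` steps are necessary. So there is no way to save space as there is for
NL, by the recursion of Savitch: a number of registers `N ^ o(1)` is not enough even in time
`2 ^ (N ^ (1/2 - ε))`. The same holds for programs over the nonnegative real numbers with `+` and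
`*`, for the sum over all derivation trees of the products of the weights.

The degree of the polynomials is exponential, and a register may be used several times in one
monomial. Proof: for a labelling of the nodes by letters, the derivation tree that always uses the
rules given by the labelling is a monomial which the program has to produce. Each register content
that is used for it can be replaced by any other monomial of this register, and by weighing with
potentials it follows that all monomials of a register that are used for some labelling have the
same balance at each pair of a node and a letter: number of occurrences as head of a rule minus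
number of occurrences as a child. A nonzero balance at a node determines the letter of this node, so
by counting there is a labelling for which at each time few nodes are open (unbalanced). Between two
times at which a node is not open it is loaded if and only if a parent is loaded. In a stack of
butterflies, if `4 q` nodes at some level are loaded in an interval of time with `q` open nodes at
the ends, then half of the nodes of the level below the next butterfly are loaded in this interval,
so it can be divided into two intervals with `4 q` loads in that level; hence the time is
exponential in the number of butterflies.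
-/

set_option autoImplicit false

namespace Pool.Agent.Results.MP_994c82_lc.DerivationRegisters

open Pool.Agent.TH679.PD
open Pool.Agent.H564R3.PW (Instr exec)
open scoped NNReal

/-- (1) Lower bounds for a stack of `j + 1` butterflies with `2 ^ d` nodes in each level, with the
alphabet `Fin k`: if a program with the registers `ρ` computes the minimum weight of a derivation
tree of the top for all weights in the natural numbers (or the sum of the products for all
nonnegative real weights), then `k ^ (q + 1) ≤ (steps + 1) * 2 ^ registers` or the number of steps
is at least `2 ^ j * 4 q`, for each `q ≥ 1` with `16 q ≤ 2 ^ d`.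

(2) Upper bound: over every commutative semiring, with `2 * 2 ^ d * k + 1` registers at most `5 N`
steps are enough, `N` being the number of the weights.

(3) For infinitely many `N` (one for each `e`) with `s = √(N / log₂ N)`: the number of registers
plus `log₂ (steps + 1)` is more than `s / 12` for every program, but there is a program with at most
`12 s` registers and at most `5 N` steps. -/
theorem result :
    (∀ (d j k q : ℕ) [NeZero d] (ρ : Type) [Fintype ρ] [DecidableEq ρ] (u : Fin k) (o : ρ),
      1 ≤ q → 16 * q ≤ 2 ^ d →
      (∀ p, SolvesMin (top d j) u p o →
        k ^ (q + 1) ≤ (p.length + 1) * 2 ^ Fintype.card ρ ∨ 2 ^ j * (4 * q) ≤ p.length) ∧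
      (∀ p, SolvesSum (top d j) u p o →
        k ^ (q + 1) ≤ (p.length + 1) * 2 ^ Fintype.card ρ ∨ 2 ^ j * (4 * q) ≤ p.length)) ∧
    (∀ (R : Type) [CommSemiring R] (d j k : ℕ) [NeZero d], 1 ≤ k →
      ∃ (ρ : Type) (_ : Fintype ρ) (_ : DecidableEq ρ)
        (p : List (Instr R (Rule (bfly d ((j + 1) * d)) k) ρ)) (o : Fin k → ρ),
        Fintype.card ρ = 2 * 2 ^ d * k + 1 ∧
        p.length ≤ 5 * Fintype.card (Rule (bfly d ((j + 1) * d)) k) ∧
        ∀ w u, exec w p (o u) = deriv w (top d j) u) ∧
    (∀ e N : ℕ, N = Fintype.card (Rule (bfly (e + 4) ((2 ^ e + 1) * (e + 4))) 2) →
      2 ^ e ≤ N ∧ ∀ s : ℝ, s = Real.sqrt (N / Real.logb 2 N) →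
        (∀ (ρ : Type) [Fintype ρ] [DecidableEq ρ] (u : Fin 2) (o : ρ),
          (∀ p, SolvesMin (top (e + 4) (2 ^ e)) u p o →
            s / 12 < Fintype.card ρ + Real.logb 2 (p.length + 1)) ∧
          (∀ p, SolvesSum (top (e + 4) (2 ^ e)) u p o →
            s / 12 < Fintype.card ρ + Real.logb 2 (p.length + 1))) ∧
        (∀ (R : Type) [CommSemiring R],
          ∃ (ρ : Type) (_ : Fintype ρ) (_ : DecidableEq ρ)
            (p : List (Instr R (Rule (bfly (e + 4) ((2 ^ e + 1) * (e + 4))) 2) ρ)) (o : Fin 2 → ρ),
            (Fintype.card ρ : ℝ) ≤ 12 * s ∧ p.length ≤ 5 * N ∧
            ∀ w u, exec w p (o u) = deriv w (top (e + 4) (2 ^ e)) u)) := by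
  have hupper : ∀ (R : Type) [CommSemiring R] (d j k : ℕ) [NeZero d], 1 ≤ k →
      ∃ (ρ : Type) (_ : Fintype ρ) (_ : DecidableEq ρ)
        (p : List (Instr R (Rule (bfly d ((j + 1) * d)) k) ρ)) (o : Fin k → ρ),
        Fintype.card ρ = 2 * 2 ^ d * k + 1 ∧
        p.length ≤ 5 * Fintype.card (Rule (bfly d ((j + 1) * d)) k) ∧
        ∀ w u, exec w p (o u) = deriv w (top d j) u := by
    intro R _ d j k _ hk
    refine ⟨Reg d k, inferInstance, inferInstance,
      prg R d ((j + 1) * d) k ((j + 1) * d + 1) le_rfl,
      fun u => reg ((j + 1) * d) (fun _ => false) u, card_Reg, ?_, ?_⟩
    · rw [card_Rule]
      exact prg_length hk _ _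
    · intro w u
      exact prg_run w _ le_rfl _ u
  refine ⟨?_, hupper, ?_⟩
  · intro d j k q _ ρ _ _ u o hq hn
    exact ⟨fun p hp => lower (good_min hp) hq hn, fun p hp => lower (good_sum hp) hq hn⟩
  · intro e N hN
    rw [card_two] at hN
    have h1 : 1 ≤ 2 ^ e := Nat.one_le_two_pow
    refine ⟨?_, ?_⟩
    · rw [hN]
      calc 2 ^ e = 1 * 2 ^ e * 1 := by ring
        _ ≤ _ := Nat.mul_le_mul (Nat.mul_le_mul_right _ (by norm_num)) (Nat.le_add_right _ _)
    · intro s hs
      have hlow := num_lower e N hN
      have hup := num_upper e N hN
      rw [← hs] at hlow hup
      refine ⟨?_, ?_⟩
      · intro ρ _ _ u o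
        constructor
        · intro p hp
          have := asym e (good_min hp)
          linarith
        · intro p hp
          have := asym e (good_sum hp)
          linarith
      · intro R _
        obtain ⟨ρ, i1, i2, p, o, g1, g2, g3⟩ := hupper R (e + 4) (2 ^ e) 2 (by norm_num)
        refine ⟨ρ, i1, i2, p, o, ?_, ?_, g3⟩
        · rw [g1]
          refine le_trans (le_of_eq ?_) hup
          push_cast
          ring
        · rw [hN, ← card_two]
          exact g2

end Pool.Agent.Results.MP_994c82_lc.DerivationRegisters
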