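import Pool.Agent.TH762.NS.Law

/-!
# `NP = PSPACE` and certified exclusion of one vector of answers

Polynomial time is Mathlib's `Turing.TM2ComputableInPolyTime`, for functions on bit strings;
`InPSPACE` is polynomial space on Mathlib's `Turing.FinTM2` machines, and `PSPACEHard` is hardness
under polynomial-time many-one reductions.

Consider `m` questions about membership in a `PSPACE`-hard set `A`, for strings of length at most `n`,
where `m = n ^ b + b`. A nondeterministic polynomial-time algorithm gets the list of questions; it has
at least one output on every list, it may have many, and every output is right. We show that
`NP = PSPACE` as soon as the outputs say anything at all about the answers:

* the output excludes a vector of a strongly explicit family of polynomially many vectors as the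
  vector of the answers: for instance `c ≤ m` which is not the number of members of `A` in the list,
  or an index `i` such that the string number `i` is not the only member;
* for one string `x` the output is an integer vector `v`, and `x ∈ A` iff `P (v) > 0`, where `P` is a
  real polynomial of bounded degree (for instance a linear form plus a constant: one threshold gate).
  The coefficients of `P` are arbitrary real numbers which may depend on the length in any way.

For `NP`-hard sets see `MP_9cec2c_lc.NondetThresholdGate` (there the conclusion is `NP = coNP`); for
functions with one value in the levels of the polynomial hierarchy see `MP_a2d820_lc.ExcludedVector`.

Proof. The certificate for the truth of a quantified formula contains tables of runs of the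
nondeterministic algorithm, one run for each list of questions on polynomially many other lists,
which depend only on the formula and on the previous tables. If a table is valid then the
deterministic search with the table finds a short list of candidates for the value of any function
computable in polynomial space: the prefixes of the value are found in a search tree, where a prefix
`v` is discarded if its hash value is the number excluded for the questions whose answers are the
vector with the number `hash v₀`, for the true prefix `v₀`. The functions are the restrictions of
the partially evaluated arithmetization of the formula to lines, and the candidates which remain at a
suitable point give the value of the arithmetization (the starting modules `Pool.Agent.W920.LN`).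
A gate excludes a row of a Hadamard matrix by the polynomial-time form of Forster's theorem,
`Pool.Agent.TH684.LT.exclF_spec`.
-/

set_option autoImplicit false

namespace Pool.Agent.Results.MP_994c82_lc.NondetExcludedVector

open Pool.Agent.NPC Pool.Agent.TH684.EX Pool.Agent.TH684.CX
open Pool.Agent.H623R2.PS (InPSPACE PSPACEHard)

/-- **Certified exclusion for polynomial space.** The following are equivalent: `NP = PSPACE` (all
sets in `PSPACE` are in `NP`); for some `PSPACE`-hard set one vector of some strongly explicit family
can be excluded nondeterministically as the vector of answers; for some `PSPACE`-hard set one can
exclude one value of the number of members; for some `PSPACE`-hard set one can find an index `i` such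
that the string number `i` is not the only member; the last two tasks can be solved for all sets in
`PSPACE`; some `PSPACE`-hard set is decided by one polynomial threshold gate of bounded degree with
nondeterministically computed inputs; all sets in `PSPACE` are decided by such a gate of degree
one. -/
theorem result : List.TFAE
    [∀ S : Set (List Bool), InPSPACE S → InNP S,
      ∃ A L : Set (List Bool), PSPACEHard A ∧ InP L ∧ NFeasible (Exclude L A),
      ∃ A : Set (List Bool), PSPACEHard A ∧ NFeasible (ExcludeCount A),
      ∃ A : Set (List Bool), PSPACEHard A ∧ NFeasible (NotOnly A),
      ∀ A : Set (List Bool), InPSPACE A → NFeasible (ExcludeCount A) ∧ NFeasible (NotOnly A),
      ∃ (A : Set (List Bool)) (k : ℕ), PSPACEHard A ∧ NPolynomialGate k A,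
      ∀ A : Set (List Bool), InPSPACE A → NPolynomialGate 1 A] :=
  Pool.Agent.TH762.NS.np_pspace_tfae

end Pool.Agent.Results.MP_994c82_lc.NondetExcludedVector
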