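import Pool.Agent.TH39.NPred

/-!
# `NP` versus `PSPACE` and nondeterministic prediction: the square-root law

`InNP` is that of `Pool.Agent.NPC.Defs`, `InPSPACE` and `PSPACEHard` (hardness under polynomial-time
many-one reductions) are those of `Pool.Agent.H623R2.PS.Defs`; polynomial time and polynomial space
are measured with Mathlib's `Turing.FinTM2`.

A set `A` is nondeterministically `(δ, ε)`-predictable (`NPredictable δ ε A`) if there is a
nondeterministic polynomial-time algorithm, with at least one output for every input, which is given a
nonempty list of `m` questions about membership in `A`, each of length at most `m ^ ε`, together with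
`O(log n)` bits of information about the list from any source, and all of whose outputs are good: an
output is a list of predictions for some `s > 0` of the questions such that the number of right
predictions and the number of wrong predictions differ by at least `m ^ δ * √ s` (random guessing
has standard deviation `√ s`). It is nondeterministically fully `δ`-predictable
(`NFullyPredictable δ A`) if the same holds with predictions for all questions, and for all nonempty
lists of questions of any length.

The theorem: for `0 < δ ≤ 1 / 2` and `ε > 0` the following are equivalent.

* `NP = PSPACE`, that is, the inclusion `NP ⊆ PSPACE` of the chain is not proper.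
* Some `PSPACE`-hard set is nondeterministically `(δ, ε)`-predictable.
* All sets in `PSPACE` are nondeterministically fully `δ`-predictable.

For `δ ≤ 0` every set whatsoever is nondeterministically fully `δ`-predictable: the threshold is the
square root of the number of predictions.

The main part is the theorem `nondet_law` of the starting file `Pool/Agent/W920/LN/Main.lean`, which
had not been handed in; the part `δ ≤ 0` follows from `fully_of_nonpos` of
`Pool/Agent/W901/AT/Cov.lean`.
-/

set_option autoImplicit false

namespace Pool.Agent.Results.MP_994c82_lc.NondetPredictionSpace

open Pool.Agent.NPC
open Pool.Agent.H623R2.PS (InPSPACE PSPACEHard)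
open Pool.Agent.W920.LN (NPredictable NFullyPredictable)

/-- **The square-root law for nondeterministic prediction of `PSPACE`-hard sets.** -/
theorem result (δ ε : ℝ) :
    (0 < δ → δ ≤ 1 / 2 → 0 < ε → List.TFAE
      [∀ L : Set (List Bool), InPSPACE L → InNP L,
        ∃ A : Set (List Bool), PSPACEHard A ∧ NPredictable δ ε A,
        ∀ A : Set (List Bool), InPSPACE A → NFullyPredictable δ A]) ∧
    (δ ≤ 0 → ∀ A : Set (List Bool), NFullyPredictable δ A) :=
  ⟨fun h1 h2 h3 => Pool.Agent.W920.LN.nondet_law h1 h2 h3,
    fun h A => Pool.Agent.TH39.NPred.nfully_of_fully (Pool.Agent.W901.AT.fully_of_nonpos h A)⟩

end Pool.Agent.Results.MP_994c82_lc.NondetPredictionSpace
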